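import Mathlib
import Pool.Agent.H23.CS

set_option autoImplicit false

namespace Pool.Agent.Results.MP_be5e04_al.TwoIdeals

open Polynomial Subgroup Filter Pool.Agent.H23.CS

attribute [local instance] Ultrafilter.mul Ultrafilter.semigroup

/-- Closed right ideals of `βG`. -/
def CRI {G : Type} [Group G] (R : Set (Ultrafilter G)) : Prop :=
  IsClosed R ∧ R.Nonempty ∧ ∀ p ∈ R, ∀ q, p * q ∈ R

abbrev R := (ZMod 2)[X]

@[ext] structure H where
  a : R
  b : R
  c : R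

noncomputable instance : Mul H := ⟨fun x y => ⟨x.a + y.a, x.b + y.b, x.c + y.c + x.a * y.b⟩⟩
noncomputable instance : One H := ⟨⟨0, 0, 0⟩⟩
noncomputable instance : Inv H := ⟨fun x => ⟨-x.a, -x.b, x.a * x.b - x.c⟩⟩

@[simp] theorem mul_def (x y : H) : x * y = ⟨x.a + y.a, x.b + y.b, x.c + y.c + x.a * y.b⟩ := rfl
@[simp] theorem one_def : (1 : H) = ⟨0, 0, 0⟩ := rfl
@[simp] theorem inv_def (x : H) : x⁻¹ = ⟨-x.a, -x.b, x.a * x.b - x.c⟩ := rfl

noncomputable instance : Group H := .ofLeftAxioms (fun _ _ _ => by ext1 <;> simp <;> ring)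
  (fun _ => by simp) fun _ => by simp

theorem cen (x : H) : x ∈ center H ↔ x.a = 0 ∧ x.b = 0 := by
  refine mem_center_iff.trans ⟨fun h => ⟨?_, ?_⟩, fun h y => by simp [h, add_comm]⟩
  · simpa using congrArg H.c (h ⟨0, 1, 0⟩)
  · simpa using congrArg H.c (h ⟨1, 0, 0⟩)

def P (d : ℕ) : Subgroup H where
  carrier := {x | x.a.natDegree ≤ d ∧ x.b.natDegree ≤ d ∧ x.c.natDegree ≤ d + d}
  mul_mem' h k := ⟨natDegree_add_le_of_degree_le h.1 k.1, natDegree_add_le_of_degree_le h.2.1 k.2.1,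
    natDegree_add_le_of_degree_le (natDegree_add_le_of_degree_le h.2.2 k.2.2)
      (natDegree_mul_le_of_le h.1 k.2.1)⟩
  one_mem' := by simp
  inv_mem' h := ⟨by simpa using h.1, by simpa using h.2.1, (natDegree_sub_le _ _).trans
    (max_le (natDegree_mul_le_of_le h.1 h.2.1) h.2.2)⟩

theorem cA (d : ℕ) : Nat.card {p : R | p.natDegree ≤ d} = 2 ^ (d + 1) := by
  have : {p : R | p.natDegree ≤ d} = degreeLT (ZMod 2) (d + 1) := by
    ext; simp [degreeLT_succ_eq_degreeLE, mem_degreeLE, natDegree_le_iff_degree_le]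
  rw [this]
  simpa using Nat.card_congr (degreeLTEquiv (ZMod 2) (d + 1)).toEquiv

theorem cP (d : ℕ) : Nat.card (P d) = 2 ^ (4 * d + 3) := by
  have : P d ≃ {p : R | p.natDegree ≤ d} × {p : R | p.natDegree ≤ d} ×
      {p : R | p.natDegree ≤ d + d} :=
    ⟨fun x => (⟨_, x.2.1⟩, ⟨_, x.2.2.1⟩, ⟨_, x.2.2.2⟩), fun y => ⟨⟨y.1, y.2.1, y.2.2⟩, y.1.2,
      y.2.1.2, y.2.2.2⟩, fun _ => rfl, fun _ => rfl⟩
  rw [Nat.card_congr this, Nat.card_prod, Nat.card_prod, cA, cA]
  ring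

instance (d : ℕ) : Finite (P d) := Nat.finite_of_card_ne_zero (by simp [cP])

theorem fP (d : ℕ) : (P d : Set H).Finite := inferInstanceAs (Finite (P d))

theorem lin (a b : ℕ) : ∃ e, a * e + b < 2 ^ e := by
  refine ⟨2 * (2 * a + b + 1), ?_⟩
  have := Nat.lt_two_pow_self (n := 2 * a + b + 1)
  rw [two_mul (2 * a + b + 1), pow_add]
  nlinarith

theorem stepH (d n : ℕ) : ∃ e > d, ∃ r : H → H, (∀ x, r x ∈ P d) ∧
    (∀ p ∈ P d, ∀ x, r (p * x) = p * r x) ∧ r 1 = 1 ∧ (∀ z ∈ center H, r z ∈ center H) ∧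
    ∀ m ∈ P d, ∀ S : Fin n → P e, ∃ g ∈ P e, ∀ i, m⁻¹ * r (g * S i) ∈ center H := by
  set m := 2 ^ (4 * d + 3)
  obtain ⟨e, he⟩ := lin (m ^ n * (4 * n) * (n + 1) ^ 2 * m)
    ((m ^ n * (4 * d + 3 + n * (4 * d + 7)) + 2) * (n + 1) ^ 2 * m)
  have inj : Function.Injective fun u : R => (⟨u, u * X ^ (d + 1), 0⟩ : H) :=
    fun _ _ h => congrArg H.a h
  refine ⟨d + 1 + e, by omega, step (P d) _ n (m ^ n * (4 * d + 3 + n * (4 * (d + 1 + e) + 3)))
    ((fun u : R => (⟨u, u * X ^ (d + 1), 0⟩ : H)) '' {p | p.natDegree ≤ e}) ?_ m (fun y h => ?_)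
    (fun y => ?_) ?_ ?_⟩
  · rintro _ ⟨u, h, rfl⟩
    exact ⟨le_add_left h, (natDegree_mul_le_of_le h (natDegree_X_pow_le _)).trans (by omega), by simp⟩
  · refine (Set.ncard_le_ncard_of_injOn (fun g => g * y * g⁻¹) (fun _ => And.right) ?_
      (fP d)).trans_eq (cP d)
    rintro _ ⟨⟨u, -, rfl⟩, i⟩ _ ⟨⟨v, -, rfl⟩, -⟩ k
    have : (u - v) * (y.b - y.a * X ^ (d + 1)) = 0 := by
      have := congrArg H.c k
      simp only [mul_def, inv_def] at this
      linear_combination this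
    refine (mul_eq_zero.1 this).elim (fun o => by rw [sub_eq_zero.1 o]) fun o => absurd ?_ h
    have a : y.a = 0 := by_contra fun a => by
      have := i.2.1
      simp only [mul_def, inv_def, add_neg_cancel_comm, sub_eq_zero.1 o, natDegree_mul_X_pow _ a] at this
      omega
    simpa [cen, a] using o
  · refine (Set.ncard_le_ncard_of_injOn (fun g => (⟨g.a + y.a, 0, 0⟩ : H)) ?_ ?_
      (fP d)).trans_eq (cP d)
    · rintro g ⟨-, z, i, j⟩
      exact ⟨by simpa [((cen z).1 i).1] using j.1, by simp⟩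
    · rintro _ ⟨⟨u, -, rfl⟩, -⟩ _ ⟨⟨v, -, rfl⟩, -⟩ k
      rw [show u = v by simpa using k]
  · rw [Set.ncard_image_of_injective _ inj, ← Nat.card_coe_set_eq, cA, pow_succ 2]
    refine lt_of_eq_of_lt (by ring) (he.trans_le (by omega))
  · have p : (0 : ℝ) < (m : ℝ) ^ n := by positivity
    have : (1 - 1 / (m : ℝ) ^ n) ^ m ^ n ≤ Real.exp (-1) := by
      simpa using Real.one_sub_div_pow_le_exp_neg (n := m ^ n) (t := 1)
        (by exact_mod_cast Nat.one_le_pow _ _ (by positivity))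
    have q : (0 : ℝ) ≤ 1 - 1 / (m : ℝ) ^ n := sub_nonneg.2 ((div_le_one p).2
      (by exact_mod_cast Nat.one_le_pow _ _ (by positivity)))
    rw [cP, cP, pow_mul _ (m ^ n)]
    refine lt_of_le_of_lt (mul_le_mul_of_nonneg_left (pow_le_pow_left₀ (by positivity) this _)
      (by positivity)) ?_
    push_cast
    rw [← pow_mul, ← pow_add, mul_comm _ n, ← mul_pow]
    refine pow_lt_one₀ (by positivity) ?_ (by omega)
    have := Real.exp_neg_one_lt_d9
    linarith

theorem cs : ∃ A : H → Set H, (∀ m ∈ P 0, ∀ n, ∃ F : Set H, F.Finite ∧ ∀ S : Fin n → H, ∃ g ∈ F,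
    ∀ i, g * S i ∈ A m) ∧ Disjoint (A 1) (A ⟨1, 0, 0⟩) := by
  choose D h0 r h1 h2 h3 h4 h5 using stepH
  let d : ℕ → ℕ := fun k => Nat.rec 0 (fun k x => D x k) k
  have sm : StrictMono d := strictMono_nat_of_lt_succ fun k => h0 _ _
  have mo : ∀ {j k}, j ≤ k → P (d j) ≤ P (d k) := fun h x i =>
    have := sm.monotone h
    ⟨i.1.trans this, i.2.1.trans this, i.2.2.trans (add_le_add this this)⟩
  let ρ : ℕ → H → H := fun k => Nat.rec id (fun k f => f ∘ r (d k) k) k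
  have st : ∀ j k x, j ≤ k → x ∈ P (d j) → ρ k x = ρ j x := fun j k x h i => by
    induction h with
    | refl => rfl
    | step h e => exact (congrArg (ρ _) (by simpa only [h3, mul_one] using h2 _ _ _ (mo h i) 1)).trans e
  have cz : ∀ m ∈ P 0, ∀ k x, m⁻¹ * x ∈ center H → m⁻¹ * ρ k x ∈ center H := fun m i k => by
    induction k with
    | zero => exact fun _ => id
    | succ k e =>
      refine fun x j => e _ ?_
      rw [← h2 _ _ _ (mo k.zero_le (inv_mem i))]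
      exact h4 _ _ _ j
  refine ⟨fun m => {x | ∀ᶠ k in atTop, m⁻¹ * ρ k x ∈ center H}, fun m i n =>
    ⟨_, fP (d (n + 1)), fun S => ?_⟩, Set.disjoint_left.2 fun x i j => ?_⟩
  · have : ∀ k, n + 1 ≤ k → ∀ S : Fin n → P (d k), ∃ g ∈ P (d (n + 1)), ∀ i,
        m⁻¹ * ρ k (g * S i) ∈ center H := fun k h => by
      induction h with
      | refl => exact fun S => (h5 _ _ m (mo n.zero_le i) S).imp fun g j =>
          ⟨j.1, fun l => cz m i n _ (j.2 l)⟩
      | step h e =>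
        intro S
        obtain ⟨g, g1, g2⟩ := e fun l => ⟨_, h1 _ _ (S l)⟩
        exact ⟨g, g1, fun l => (h2 _ _ _ (mo h g1) _ ▸ g2 l :)⟩
    obtain ⟨k, a, b⟩ := ((eventually_ge_atTop (n + 1)).and (eventually_all.2 fun i =>
      show ∀ᶠ k in atTop, S i ∈ P (d k) from ((sm.tendsto_atTop.eventually_ge_atTop _).and
      ((sm.tendsto_atTop.eventually_ge_atTop _).and (sm.tendsto_atTop.eventually_ge_atTop
        (S i).c.natDegree))).mono fun k h => ⟨h.1, h.2.1, le_add_left h.2.2⟩)).exists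
    obtain ⟨g, g1, g2⟩ := this k a fun i => ⟨_, b i⟩
    exact ⟨g, g1, fun l => (eventually_ge_atTop k).mono fun j o =>
      st k j _ o (mul_mem (mo a g1) (b l)) ▸ g2 l⟩
  · obtain ⟨k, a, b⟩ := (Eventually.and i j).exists
    simp_all [cen]

theorem ideal {G : Type} [Group G] {A : Set G} (h : ∀ n, ∃ F : Set G, F.Finite ∧
    ∀ S : Fin n → G, ∃ g ∈ F, ∀ i, g * S i ∈ A) : 
    ∃ I : Set (Ultrafilter G), Minimal CRI I ∧ ∀ p ∈ I, ∀ q, A ∈ p * q := by
  have : CRI {p : Ultrafilter G | ∀ q, A ∈ p * q} := by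
    refine ⟨?_, ?_, fun p i q s => mul_assoc p q s ▸ i _⟩
    · simp only [Set.ofPred_forall]
      exact isClosed_iInter fun q => (ultrafilter_isClosed_basic A).preimage
        (Ultrafilter.continuous_mul_left q)
    obtain ⟨p, hp⟩ := Ultrafilter.exists_ultrafilter_of_finite_inter_nonempty
      (Set.range fun q : Ultrafilter G => {g | ∀ᶠ x in q, g * x ∈ A}) fun T t => by
        choose q hq using fun i : T => t i.2
        obtain ⟨F, f1, f2⟩ := h T.card
        choose x hx using fun i : T => ((eventually_all_finite f1).2 fun g _ =>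
          show ∀ᶠ x in q i, g * x ∈ A → ∀ᶠ x in q i, g * x ∈ A from
          (Ultrafilter.em (q i) (g * · ∈ A)).elim (fun e => .of_forall fun _ _ => e)
            fun e => e.mono fun _ a b => absurd b a).exists
        obtain ⟨g, g1, g2⟩ := f2 fun j => x (T.equivFin.symm j)
        exact ⟨g, fun s i => (hq ⟨s, i⟩).subset
          (hx _ g g1 (by simpa using g2 (T.equivFin ⟨s, i⟩)))⟩
    exact ⟨p, fun q => (Ultrafilter.eventually_mul p q (· ∈ A)).2 (hp ⟨q, rfl⟩)⟩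
  obtain ⟨I, a, b⟩ := zorn_superset_nonempty {I | CRI I} (fun c i j k => by
    have := k.to_subtype
    exact ⟨⋂₀ c, ⟨isClosed_sInter fun I l => (i l).1,
      IsCompact.nonempty_sInter_of_directed_nonempty_isCompact_isClosed 
        (fun x u y v => (j.total u v).elim (fun e => ⟨x, u, le_rfl, e⟩) fun e => ⟨y, v, e, le_rfl⟩)
        (fun I l => (i l).2.1) (fun I l => (i l).1.isCompact) fun I l => (i l).1,
      fun p l q I o => (i o).2.2 p (l I o) q⟩, fun _ => Set.sInter_subset_of_mem⟩) _ this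
  exact ⟨I, b, fun p i => a i⟩

theorem result : ∃ (G : Type) (_ : Group G), Countable G ∧ Group.IsNilpotent G ∧
    (¬ ∃ K : Subgroup G, K.FiniteIndex ∧ ∀ x ∈ K, ∀ y ∈ K, x * y = y * x) ∧
    ∃ I J : Set (Ultrafilter G), Minimal CRI I ∧ Minimal CRI J ∧ I ≠ J := by
  have : Countable R := (Set.countable_univ_iff.1 ((Set.countable_iUnion fun d =>
    Set.Finite.countable (Nat.finite_of_card_ne_zero ((cA d).trans_ne (by simp)))).mono
    fun p _ => Set.mem_iUnion.2 ⟨p.natDegree, le_refl p.natDegree⟩))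
  refine ⟨H, inferInstance, Function.Injective.countable (f := fun x => (x.a, x.b, x.c))
    (fun _ _ h => by ext1 <;> simp_all), Subgroup.isNilpotent_of_ker_le_center
    (H := Multiplicative (R × R)) ⟨⟨fun x => .ofAdd (x.a, x.b), rfl⟩, fun _ _ => rfl⟩
    fun x h => (cen x).2 (Prod.ext_iff.1 h), fun ⟨K, _, h⟩ => ?_, ?_⟩
  · obtain ⟨a, a', i, j⟩ := Finite.exists_ne_map_eq_of_infinite fun a : R => ((⟨a, 0, 0⟩ : H) : H ⧸ K)
    obtain ⟨b, b', k, l⟩ := Finite.exists_ne_map_eq_of_infinite fun a : R => ((⟨0, a, 0⟩ : H) : H ⧸ K)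
    simpa [neg_add_eq_zero, i, k] using
      congrArg H.c (h _ (QuotientGroup.eq.1 j) _ (QuotientGroup.eq.1 l))
  obtain ⟨A, h, k⟩ := cs
  obtain ⟨I, a, b⟩ := ideal (h 1 (one_mem _))
  obtain ⟨J, c, d⟩ := ideal (h ⟨1, 0, 0⟩ ⟨by simp, by simp, by simp⟩)
  refine ⟨I, J, a, c, fun e => ?_⟩
  obtain ⟨p, i⟩ := a.1.2.1
  exact (Ultrafilter.nonempty_of_mem (inter_mem (b p i p) (d p (e ▸ i) p))).not_disjoint k

end Pool.Agent.Results.MP_be5e04_al.TwoIdeals
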